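import Mathlib
import Pool.Agent.J4H49.RStd
import Pool.Agent.TH167.SH.Defs

set_option autoImplicit false

/-!
# Irreducible curves through very general points: the genus in terms of `C ^ 2 - dim |C|`

Let `X` be the blow-up of the complex projective plane at `s ≥ 4` very general points, and let `C` be
an irreducible curve on `X` (the strict transform of a plane curve of degree `d` with
multiplicities `w i`). Let `p_a (C)` be its arithmetic genus. Always
`p_a (C) ≥ C ^ 2 - dim |C| + 1`, and `|C|` is special if and only if this is a strict inequality. The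
conjecture is equivalent to the equality `p_a (C) = C ^ 2 - dim |C| + 1` for all irreducible curves.

Let `I` be a set of points at which `C` has multiplicity at least two, and
`T = ∑ w i (w i - 2)`, `L = ∑ w i`, `R = ∑ (w i (w i - 1) (2 w i - 5) + 2)` (sums over `I`).

1. If `C ^ 2 - dim |C| ≤ c < T` then `(T - c) (2 p_a (C) - 2 c - 2 L) ≤ R (T + c + 2 L)`: the genus is
   bounded in terms of `C ^ 2 - dim |C|` and the multiplicities at the points of `I` only.
2. If `3 ≤ w i ≤ M` on `I` and `2 p_a (C) ≥ 9 M T ^ 2`, then `dim |C| ≤ C ^ 2 - T`.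
3. If `C` is special, then finitely many reflections carry the class of `C` to the class `(e; u)` of
   an irreducible curve in standard form, with the same self-intersection and dimension, such that
   `e ≤ 122 M ^ 2 (c + M ^ 2) ^ 4`, and the number of the positive `u i` plus `dim |C|` is at most
   `28 M (c + M ^ 2) ^ 2`, for ALL natural numbers `M`, `c` for which in some class `(f; v)` of the
   orbit there is a set `I` of points with `3 ≤ v i ≤ M` on `I` and
   `C ^ 2 - dim |C| ≤ c < ∑ v i (v i - 2)` (sum over `I`).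

There is no condition on the number of the points, on the other multiplicities or on the sign of
`C ^ 2`.

Idea of the proof. Adding `dim |C|` simple points of `C` makes the curve rigid (the new points are not
general, but this is not needed). Let `D = C + ∑ w i E i`, the sum over `I`. The derivatives of the
equation `G` of `C` with respect to the very general points of `I` and a theorem of Bertini type
show that all linear forms at a point of `I` are leading forms of sections of `D`; a derivative `H` of
`G` is a section of `D` with multiplicities `w i - 1`. Multiplication by `H` and the jets of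
sections of `n D` modulo `(G, H)` at the points of `I` show that the number of sections of `n D` on
`C` is at least `n ∑ w i (w i - 1) - R / 2`. For `n` with `n (T - c) > R` this contradicts the
theorem of Clifford unless `n D` is not special on `C`; now the theorem of Riemann and Roch bounds
the genus. The reduction to finitely many classes uses the starting result FixedGenusIsFinite.
-/

namespace Pool.Agent.Results.MP_6e81d8_ag.IrreducibleCurvesGenusBound

open MvPolynomial Pool.Agent.TH167 Pool.Agent.TH167.SHDefs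

/-- Twice the arithmetic genus of a curve of class `(d; w)`, by adjunction:
`2 p_a (C) = C ^ 2 + K C + 2`. -/
def twiceGenus {s : ℕ} (d : ℕ) (w : Fin s → ℕ) : ℤ := inter d w d w + interK d w + 2

/-- The sum of `w i (w i - 2)` over the points of `I`. -/
def T {s : ℕ} (w : Fin s → ℕ) (I : Finset (Fin s)) : ℤ := ∑ i ∈ I, (w i : ℤ) * (w i - 2)

/-- The sum of the multiplicities at the points of `I`. -/
def L {s : ℕ} (w : Fin s → ℕ) (I : Finset (Fin s)) : ℤ := ∑ i ∈ I, (w i : ℤ)

/-- The sum of `w i (w i - 1) (2 w i - 5) + 2` over the points of `I`. -/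
def R {s : ℕ} (w : Fin s → ℕ) (I : Finset (Fin s)) : ℤ :=
  ∑ i ∈ I, ((w i : ℤ) * (w i - 1) * (2 * w i - 5) + 2)

/-- The reflection of the class `a = (d; w)`, `d H - ∑ w l E l`, in the class
`H - E (i 0) - E (i 1) - E (i 2)`: with `δ = d - w (i 0) - w (i 1) - w (i 2)`, the numbers
`d`, `w (i 0)`, `w (i 1)`, `w (i 2)` are increased by `δ`. -/
def reflect {s : ℕ} (i : Fin 3 → Fin s) (a : ℤ × (Fin s → ℤ)) : ℤ × (Fin s → ℤ) :=
  (a.1 + (a.1 - a.2 (i 0) - a.2 (i 1) - a.2 (i 2)),
    fun l => a.2 l + if l = i 0 ∨ l = i 1 ∨ l = i 2 then a.1 - a.2 (i 0) - a.2 (i 1) - a.2 (i 2)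
      else 0)

/-- Finitely many reflections carry the class `a` to `b`. -/
def Carries {s : ℕ} (a b : ℤ × (Fin s → ℤ)) : Prop :=
  Relation.ReflTransGen
    (fun a b : ℤ × (Fin s → ℤ) => ∃ i : Fin 3 → Fin s, Function.Injective i ∧ b = reflect i a) a b

/-- The class `(e; u)` is standard: the degree is at least the sum of any three multiplicities. -/
def Standard {s : ℕ} (e : ℕ) (u : Fin s → ℕ) : Prop :=
  ∀ i j l : Fin s, i ≠ j → i ≠ l → j ≠ l → u i + u j + u l ≤ e

/-- The number of positive multiplicities. -/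
def numPos {s : ℕ} (u : Fin s → ℕ) : ℕ := (Finset.univ.filter fun i => u i ≠ 0).card

theorem result (s : ℕ) (hs : 4 ≤ s) :
    ∃ Z : ℕ → MvPolynomial (Fin s × Fin 2) ℂ, (∀ n, Z n ≠ 0) ∧
      ∀ P : Fin s → Fin 2 → ℂ,
        (∀ n, MvPolynomial.eval (fun ij : Fin s × Fin 2 => P ij.1 ij.2) (Z n) ≠ 0) →
        ∀ (d : ℕ) (w : Fin s → ℕ) (C : MvPolynomial (Fin 3) ℂ), Curve P C d w →
          -- (0) the curve is special if and only if the genus is larger than `C ^ 2 - dim |C| + 1`
          (2 * (inter d w d w - dimL P d w + 1) ≤ twiceGenus d w ∧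
            (Special P d w ↔ 2 * (inter d w d w - dimL P d w + 1) < twiceGenus d w)) ∧
          -- (1) the bound for the genus
          (∀ (I : Finset (Fin s)) (c : ℕ), (∀ i ∈ I, 2 ≤ w i) →
            inter d w d w - dimL P d w ≤ c → (c : ℤ) < T w I →
            (T w I - c) * (twiceGenus d w - 2 * c - 2 * L w I) ≤
              R w I * (T w I + c + 2 * L w I)) ∧
          -- (2) the bound for the dimension
          (∀ (I : Finset (Fin s)) (M : ℕ), I.Nonempty → (∀ i ∈ I, 3 ≤ w i ∧ w i ≤ M) →
            9 * M * (T w I) ^ 2 ≤ twiceGenus d w → dimL P d w ≤ inter d w d w - T w I) ∧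
          -- (3) finiteness
          (Special P d w → ∃ (e : ℕ) (u : Fin s → ℕ) (G : MvPolynomial (Fin 3) ℂ),
            Carries ((d : ℤ), fun l => (w l : ℤ)) ((e : ℤ), fun l => (u l : ℤ)) ∧
            Curve P G e u ∧ Standard e u ∧ e ≤ d ∧ inter e u e u = inter d w d w ∧
            dimL P e u = dimL P d w ∧
            ∀ (f : ℕ) (v : Fin s → ℕ),
              Carries ((d : ℤ), fun l => (w l : ℤ)) ((f : ℤ), fun l => (v l : ℤ)) →
              ∀ (I : Finset (Fin s)) (M c : ℕ), (∀ i ∈ I, 3 ≤ v i ∧ v i ≤ M) →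
                inter d w d w - dimL P d w ≤ c → (c : ℤ) < T v I →
                e ≤ 122 * M ^ 2 * (c + M ^ 2) ^ 4 ∧
                (numPos u : ℤ) + dimL P d w ≤ 28 * M * (c + M ^ 2) ^ 2) := by
  have hgen : ∀ {s : ℕ} (d : ℕ) (w : Fin s → ℕ),
      twiceGenus d w = SH.ip d w d w - SH.kk d w + 2 := by
    intro s d w
    unfold twiceGenus
    rw [SH.inter_eq, SH.interK_eq]
    ring
  have hR : ∀ {s : ℕ} (w : Fin s → ℕ) (I : Finset (Fin s)), R w I = ∑ k ∈ I, J4H49.rl (w k) := by
    intro s w I
    unfold R J4H49.rl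
    exact Finset.sum_congr rfl fun i _ => by ring
  obtain ⟨r, rfl⟩ : ∃ r, s = r + 4 := ⟨s - 4, by omega⟩
  obtain ⟨Z, hZ, h⟩ := SH.exists_fam (Fin (r + 4) × Fin 2)
  refine ⟨Z, hZ, fun P hP0 d w C hC => ?_⟩
  have hP := (h _).1 hP0
  obtain ⟨h1, h2, h3⟩ := SH.curve_iff.1 hC
  -- the dimension
  obtain ⟨ρ, hρ⟩ : ∃ ρ : ℕ, Module.finrank ℂ ↥(W609.CR.VS (fun j => W609.CR.aff (P j)) w d) = ρ + 1 := by
    have hfin : Module.Finite ℂ ↥(W609.CR.VS (fun j => W609.CR.aff (P j)) w d) := W609.CR.vs_fin _ _ _
    have hne : W609.CR.VS (fun j => W609.CR.aff (P j)) w d ≠ ⊥ := by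
      intro h0
      have h4 : C ∈ W609.CR.VS (fun j => W609.CR.aff (P j)) w d :=
        (SH.mem_VS _ _ _ _).2 ⟨h2, fun j => (h3 j).1⟩
      rw [h0, Submodule.mem_bot] at h4
      exact h1.ne_zero h4
    have h5 : Module.finrank ℂ ↥(W609.CR.VS (fun j => W609.CR.aff (P j)) w d) ≠ 0 := fun h6 =>
      hne (Submodule.finrank_eq_zero.1 h6)
    exact ⟨Module.finrank ℂ ↥(W609.CR.VS (fun j => W609.CR.aff (P j)) w d) - 1, by omega⟩
  have hdim : dimL P d w = ρ := by
    rw [SH.dimL_eq, hρ]
    push_cast
    ring
  have hχ := SH.chi_le_dim P d w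
  rw [hρ] at hχ
  push_cast at hχ
  have h2χ := SH.two_chi d w
  have hspec : Special P d w ↔ SH.chi d w < ρ + 1 := by
    unfold Special
    rw [hdim, SH.virtdim_eq]
    constructor
    · intro h4
      by_contra h5
      apply h4
      rw [max_eq_left] <;> omega
    · intro h4 h5
      rcases le_total (SH.chi d w - 1) (-1) with h6 | h6
      · rw [max_eq_right h6] at h5
        omega
      · rw [max_eq_left h6] at h5
        omega
  -- the bound for the genus
  have hmain : ∀ (I : Finset (Fin (r + 4))) (c : ℕ), (∀ i ∈ I, 2 ≤ w i) →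
      inter d w d w - dimL P d w ≤ c → (c : ℤ) < T w I →
      (T w I - c) * (twiceGenus d w - 2 * c - 2 * L w I) ≤ R w I * (T w I + c + 2 * L w I) := by
    intro I c hI hc hT
    have hIne : I.Nonempty := by
      rw [Finset.nonempty_iff_ne_empty]
      rintro rfl
      unfold T at hT
      rw [Finset.sum_empty] at hT
      omega
    rw [hdim, SH.inter_eq] at hc
    rw [hgen, hR]
    unfold T at hT ⊢
    unfold L
    exact (J4H49.gd_of_alg hP h1 h2 h3 hIne hI).fin hρ.ge hc hT
  refine ⟨⟨?_, ?_⟩, hmain, fun I M hIne hI hg => ?_, fun hsp => ?_⟩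
  · rw [hgen, hdim, SH.inter_eq]
    omega
  · rw [hspec, hgen, hdim, SH.inter_eq]
    omega
  · -- (2)
    by_contra hcon
    push Not at hcon
    obtain ⟨k, hk⟩ := hIne
    have hM : (3 : ℤ) ≤ M := by
      have := hI k hk
      have h4 : 3 ≤ M := by omega
      exact_mod_cast h4
    have hLT : L w I ≤ T w I := by
      refine Finset.sum_le_sum fun j hj => ?_
      have h4 : (3 : ℤ) ≤ w j := by exact_mod_cast (hI j hj).1
      nlinarith
    have hRT : R w I ≤ 2 * M * T w I := by
      rw [hR]
      unfold T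
      rw [Finset.mul_sum]
      exact Finset.sum_le_sum fun j hj => J4H49.rl_le (by have := hI j hj; omega) (hI j hj).2
    have hR0 : 0 ≤ R w I := by
      rw [hR]
      exact Finset.sum_nonneg fun j hj => J4H49.rl_nonneg (by have := hI j hj; omega)
    have hL3 : 3 ≤ L w I := by
      have h4 := Finset.single_le_sum (f := fun i => (w i : ℤ)) (s := I)
        (fun j _ => Int.natCast_nonneg _) hk
      have h5 : (3 : ℤ) ≤ w k := by exact_mod_cast (hI k hk).1
      exact h5.trans h4
    obtain ⟨c, hc⟩ : ∃ c : ℕ, (c : ℤ) = T w I - 1 :=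
      ⟨(T w I - 1).toNat, Int.toNat_of_nonneg (by linarith)⟩
    have h4 := hmain I c (fun i hi => by have := hI i hi; omega) (by linarith) (by linarith)
    rw [hc] at h4
    have h5 : R w I * (T w I + (T w I - 1) + 2 * L w I) ≤ (2 * M * T w I) * (4 * T w I) :=
      mul_le_mul hRT (by linarith) (by linarith) (by nlinarith)
    have h6 : (3 : ℤ) * (3 * T w I) ≤ M * (T w I * T w I) :=
      mul_le_mul hM (by nlinarith) (by linarith) (by linarith)
    nlinarith
  · -- (3)
    obtain ⟨e, u, b1, b2, b3, b4, b5, b6, b7⟩ := J4H49.fin_main hP h1 h2 h3 hρ (hspec.1 hsp)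
    obtain ⟨G, g1, g2, g3⟩ := b2.ex
    refine ⟨e, u, G, b1, SH.curve_iff.2 ⟨g1, g2, g3⟩, b3, b4, b5, ?_, ?_⟩
    · rw [SH.dimL_eq, b6, hdim]
      push_cast
      ring
    · intro f v hfv I M c hI hc hT
      rw [hdim, SH.inter_eq] at hc
      obtain ⟨c1, c2⟩ := b7 f v hfv I M c hI hc hT
      refine ⟨by exact_mod_cast c1, ?_⟩
      rw [hdim]
      exact c2

end Pool.Agent.Results.MP_6e81d8_ag.IrreducibleCurvesGenusBound
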